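import Pool.Agent.Y795.PiH.Stm
import Pool.Agent.H326R2.Pi.T5

/-!
# PH1: denominators of the linear forms at odd primes (helper87)
-/

set_option autoImplicit false

open Polynomial

namespace Pool.Agent.Y87.PiH

open Pool.Agent.H326R2.Pi Pool.Agent.Y795.PiH

theorem pn_pow (q : ℕ) [Fact q.Prime] (x : ℚ) (n : ℕ) :
    padicNorm q (x ^ n) = padicNorm q x ^ n := by
  induction n with
  | zero => simp
  | succ n ih => rw [pow_succ, padicNorm.mul, ih, pow_succ]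

theorem pn_inv (q : ℕ) [Fact q.Prime] (x : ℚ) : padicNorm q x⁻¹ = (padicNorm q x)⁻¹ := by
  rw [← one_div, padicNorm.div, padicNorm.one, one_div]

/-- an integral solution gives the value of `kf` and a bound for `bf` -/
theorem key {p : ℕ} (hp : 1 ≤ p) (Q Φ : ℤ[X]) (k : ℤ) (m L : ℕ) (hL : L ≠ 0)
    (h : LL (2 * p) Φ = 8 ^ m * (L : ℤ[X]) * (Q * WW ℤ p - C k * (X ^ 2 - 8) ^ (2 * p))) :
    kf p (iq Q) = k ∧ ∀ q : ℕ, q.Prime → q ≠ 2 →
      padicNorm q (bf p (iq Q)) ≤ (padicNorm q (L : ℚ))⁻¹ := by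
  have hL' : (L : ℚ) ≠ 0 := by exact_mod_cast hL
  have hSl : Sl p (iq Q) k (C ((8 ^ m * (L : ℚ))⁻¹) * Φ.map (Int.castRingHom ℚ)) := by
    unfold Sl iq
    have h3 := congrArg (Polynomial.map (Int.castRingHom ℚ)) h
    rw [LL_map] at h3
    have h5 : (C k : ℤ[X]).map (Int.castRingHom ℚ) = C (k : ℚ) := by rw [Polynomial.map_C]; simp
    simp only [Polynomial.map_mul, Polynomial.map_sub, Polynomial.map_pow, Polynomial.map_ofNat,
      Polynomial.map_natCast, Polynomial.map_X, WW_map, h5] at h3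
    rw [LL_C_mul, h3]
    have h4 : (8 ^ m * (L : ℚ[X])) = C (8 ^ m * (L : ℚ)) := by
      rw [C_mul, C_pow, map_natCast, map_ofNat]
    rw [h4, ← mul_assoc, ← C_mul, inv_mul_cancel₀ (by positivity), C_1, one_mul]
  obtain ⟨h1, h2⟩ := eq_of_Sl hp hSl
  refine ⟨h1, fun q hq hq2 => ?_⟩
  have : Fact q.Prime := ⟨hq⟩
  have hval : (Φ.map (Int.castRingHom ℚ)).eval 2 = ((Φ.eval 2 : ℤ) : ℚ) := by
    have := Polynomial.eval_intCast_map (Int.castRingHom ℚ) Φ 2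
    simpa using this
  have h2' : padicNorm q (2 : ℚ) = 1 := by
    have : padicNorm q ((2 : ℕ) : ℚ) = 1 := by
      rw [padicNorm.nat_eq_one_iff]
      intro hdvd
      exact hq2 ((Nat.prime_dvd_prime_iff_eq hq Nat.prime_two).1 hdvd)
    exact_mod_cast this
  have h8 : padicNorm q (8 : ℚ) = 1 := by
    rw [show (8 : ℚ) = 2 ^ 3 by norm_num, pn_pow, h2', one_pow]
  have h16 : padicNorm q (16 : ℚ) = 1 := by
    rw [show (16 : ℚ) = 2 ^ 4 by norm_num, pn_pow, h2', one_pow]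
  unfold bf
  rw [h2, eval_mul, eval_C, hval, padicNorm.div, padicNorm.mul, padicNorm.mul, pn_pow, h16,
    one_pow, div_one, h8, one_mul, pn_inv, padicNorm.mul, pn_pow, h8, one_pow, one_mul]
  exact mul_le_of_le_one_right (inv_nonneg.2 (padicNorm.nonneg _)) (padicNorm.of_int _)

/-- PH1 (a) -/
theorem odd1 : S_odd1 := by
  intro p hp Q hQ
  obtain ⟨k, Φ, -, h, -⟩ := sol_int p hp (4 * p) (by omega) Q (by omega)
  obtain ⟨h1, h2⟩ := key hp Q Φ k (2 * p) (Nat.lcmUpto (4 * p)) (Nat.lcmUpto_pos _).ne' h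
  refine ⟨⟨k, h1⟩, fun q hq hq2 => (h2 q hq hq2).trans ?_⟩
  have : Fact q.Prime := ⟨hq⟩
  rw [padicNorm.eq_zpow_of_nonzero (by exact_mod_cast (Nat.lcmUpto_pos _).ne'),
    padicValRat.of_nat, zpow_neg, inv_inv, zpow_natCast, ← Nat.factorization_def _ hq,
    Nat.factorization_lcmUpto _ hq]

/-- PH1 (b) -/
theorem odd2 : S_odd2 := by
  intro p a q Q hp ha hq hq2 h1 h2
  set N : ℕ := max (Q.natDegree + 2 * a + 2 * p) (4 * p - 2 * a - 1) with hN
  have hN1 : Q.natDegree + 2 * a + 2 * p ≤ N := le_max_left _ _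
  have hN2 : 4 * p - 2 * a - 1 ≤ N := le_max_right _ _
  have hNq : N < q := max_lt h2 (by have := hq.pos; omega)
  obtain ⟨k, Φ, -, h⟩ := term (2 * p - a) N (Nat.lcmUpto N) (by omega) (by omega) (lcm_dvd N)
    (Q * WW ℤ p) (by
      refine natDegree_mul_le.trans ?_
      have := natDegree_WW ℤ p
      omega)
  have h3 : LL (2 * p) ((X ^ 2 - 8) ^ a * Φ) = 8 ^ (2 * p - a) * (Nat.lcmUpto N : ℤ[X]) *
      (((X ^ 2 - 8) ^ a * Q) * WW ℤ p - C k * (X ^ 2 - 8) ^ (2 * p)) := by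
    have h4 := T5.LL_pow (2 * p - a) a Φ
    rw [show 2 * p - a + a = 2 * p by omega, h] at h4
    rw [h4]
    have h5 : ((X : ℤ[X]) ^ 2 - 8) ^ (2 * p) = (X ^ 2 - 8) ^ a * (X ^ 2 - 8) ^ (2 * p - a) := by
      rw [← pow_add]; congr 1; omega
    rw [h5]
    ring
  obtain ⟨-, h6⟩ := key hp _ _ k (2 * p - a) (Nat.lcmUpto N) (Nat.lcmUpto_pos _).ne' h3
  refine (h6 q hq hq2).trans ?_
  have : Fact q.Prime := ⟨hq⟩
  rw [(padicNorm.nat_eq_one_iff (Nat.lcmUpto N)).2, inv_one]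
  intro hdvd
  have h7 : q ∈ (Nat.lcmUpto N).primeFactors :=
    Nat.mem_primeFactors.2 ⟨hq, hdvd, (Nat.lcmUpto_pos _).ne'⟩
  rw [Nat.primeFactors_lcmUpto, Nat.mem_primesLE] at h7
  omega

end Pool.Agent.Y87.PiH
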